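import Pool.Agent.J6H54.CH.Stm

/-!
# CH-10: quasi-additivity of the length
-/

set_option autoImplicit false

namespace Pool.Agent.J6H62.CH10

open Pool.Agent.J6H54.CH

theorem m10' (h7 : S_window) (h8 : S_cut) (h9 : S_low) : S_key := by
  classical
  intro Λ _ σ T p q κ M C0 R C H hT hB
  obtain ⟨P, hP⟩ := h7 Λ σ T p q κ M C0 R H hT hB
  have hfin := H.fin (P * R / (1 - κ) + C)
  obtain ⟨K1, hK1⟩ : ∃ K1 : ℕ, ∀ y : Λ, p y ≤ P * R / (1 - κ) + C → q y ≤ P * R / (1 - κ) + C →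
      len σ T (y, 0) ≤ K1 := by
    refine ⟨hfin.toFinset.sup (fun y => len σ T (y, 0)), fun y hy1 hy2 => ?_⟩
    exact Finset.le_sup (f := fun y => len σ T (y, 0)) (hfin.mem_toFinset.2 ⟨hy1, hy2⟩)
  refine ⟨2 * R * R * P + 2 * K1, fun n1 n2 v1 v2 hv1 hv2 => ?_⟩
  rw [mem_bx H] at hv1 hv2
  obtain ⟨x, hx⟩ : ∃ x, x = v1 + (σ ^ (n1 : ℤ)) v2 := ⟨_, rfl⟩
  rw [← hx]
  obtain ⟨w, hw, hval⟩ := exists_geo' hT (x, ((n1 + n2 : ℕ) : ℤ))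
  have hlen : len σ T (x, ((n1 + n2 : ℕ) : ℤ)) = w.length := by rw [← hval]; exact hw.2
  have hht : ht w = (n1 : ℤ) + n2 := by
    rw [← val_snd (σ := σ), hval]; push_cast; ring
  obtain ⟨hsum, hcut⟩ := h8 Λ σ T p q R hT hB (n1 : ℤ) 0 w hw.1
  have hlow := h9 Λ σ T p q κ M C0 R P H hB (n1 : ℤ) 0 w hw.1 (fun j => hP j 0 w hw)
  have hvis : vis (n1 : ℤ) R 0 w ≤ P := hP _ _ _ hw
  obtain ⟨xl, hxl⟩ : ∃ xl, xl = lowX σ (n1 : ℤ) 0 w := ⟨_, rfl⟩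
  obtain ⟨xh, hxh⟩ : ∃ xh, xh = highX σ (n1 : ℤ) 0 w := ⟨_, rfl⟩
  rw [← hxl, ← hxh] at hsum hcut hlow
  have e1 : min (0 : ℤ) (n1 : ℤ) = 0 := by omega
  have e2 : max (0 : ℤ) (n1 : ℤ) = n1 := by omega
  have e3 : min (0 + ht w) (n1 : ℤ) = n1 := by rw [hht]; omega
  have e4 : max (0 + ht w) (n1 : ℤ) = n1 + n2 := by rw [hht]; omega
  rw [e1, e2, e3, e4, sub_zero, neg_zero, pow_zero_apply,
    show (n1 : ℤ) + n2 - n1 = n2 by ring] at hcut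
  rw [pow_zero_apply, hval] at hsum
  simp only at hsum
  -- the difference
  obtain ⟨y, hy⟩ : ∃ y, y = (σ ^ (-(n1 : ℤ))) (xl - v1) := ⟨_, rfl⟩
  have hy2 : y = v2 - (σ ^ (-(n1 : ℤ))) xh := by
    have h : xl - v1 = (σ ^ (n1 : ℤ)) v2 - xh := by
      rw [hx] at hsum
      rw [sub_eq_sub_iff_add_eq_add, hsum, add_comm]
    rw [hy, h, map_sub, pow_neg_pow]
  have hpy : p y ≤ P * R / (1 - κ) + C := by
    rw [hy, map_sub]
    have h1 := H.p_sub ((σ ^ (-(n1 : ℤ))) xl) ((σ ^ (-(n1 : ℤ))) v1)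
    linarith [hlow.1, hv1.2]
  have hqy : q y ≤ P * R / (1 - κ) + C := by
    rw [hy2]
    have h1 := H.q_sub v2 ((σ ^ (-(n1 : ℤ))) xh)
    linarith [hlow.2, hv2.1]
  have hy1 : len σ T (y, 0) ≤ K1 := hK1 y hpy hqy
  have hy3 : len σ T (-y, 0) ≤ K1 := hK1 (-y) (by rwa [H.p_neg]) (by rwa [H.q_neg])
  have t1 : len σ T (v1, (n1 : ℤ)) ≤ len σ T (xl, (n1 : ℤ)) + len σ T (-y, 0) := by
    have h := len_add hT xl (-y) (n1 : ℤ) 0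
    have h3 : xl + (σ ^ (n1 : ℤ)) (-y) = v1 := by
      rw [map_neg, hy, pow_pow_neg]
      abel
    rw [h3, add_zero] at h
    exact h
  have t2 : len σ T (v2, (n2 : ℤ)) ≤
      len σ T (y, 0) + len σ T ((σ ^ (-(n1 : ℤ))) xh, (n2 : ℤ)) := by
    have h := len_add hT y ((σ ^ (-(n1 : ℤ))) xh) 0 (n2 : ℤ)
    have h3 : y + (σ ^ (0 : ℤ)) ((σ ^ (-(n1 : ℤ))) xh) = v2 := by
      rw [pow_zero_apply, hy2]
      abel
    rw [h3, zero_add] at h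
    exact h
  rw [hlen]
  have hv : 2 * R * R * vis (n1 : ℤ) R 0 w ≤ 2 * R * R * P := Nat.mul_le_mul_left _ hvis
  omega

theorem m10 (_h2 : S_metric) (h7 : S_window) (h8 : S_cut) (h9 : S_low) : S_key := m10' h7 h8 h9

end Pool.Agent.J6H62.CH10
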