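import Pool.Agent.J6H54.CH.Stm

/-!
# CH-16: elementary facts on conjugation
-/

set_option autoImplicit false

namespace Pool.Agent.J6H62.CH16

open Pool.Agent.J6H54.CH

section
variable {Λ : Type} [AddCommGroup Λ] {σ : Λ ≃ₗ[ℤ] Λ}

theorem cj_refl (a : Λ × ℤ) : Cj σ a a := ⟨(0, 0), by rw [one_mul', mul_one']⟩

theorem cj_symm {a b : Λ × ℤ} (h : Cj σ a b) : Cj σ b a := by
  obtain ⟨c, hc⟩ := h
  refine ⟨inv σ c, ?_⟩
  calc mul σ (inv σ c) b = mul σ (inv σ c) (mul σ (mul σ b c) (inv σ c)) := by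
        rw [mul_assoc' b, mul_inv', mul_one']
    _ = mul σ (inv σ c) (mul σ (mul σ c a) (inv σ c)) := by rw [hc]
    _ = mul σ a (inv σ c) := by
        rw [mul_assoc' c, ← mul_assoc' (inv σ c), Pool.Agent.J6H54.CH.inv_mul', one_mul']

theorem cj_trans {a b c : Λ × ℤ} (h : Cj σ a b) (h' : Cj σ b c) : Cj σ a c := by
  obtain ⟨u, hu⟩ := h
  obtain ⟨v, hv⟩ := h'
  refine ⟨mul σ v u, ?_⟩
  rw [mul_assoc', hu, ← mul_assoc', hv, mul_assoc']

theorem cj_snd {a b : Λ × ℤ} (h : Cj σ a b) : a.2 = b.2 := by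
  obtain ⟨c, hc⟩ := h
  have := congrArg Prod.snd hc
  rw [mul_snd, mul_snd] at this
  omega

theorem cj_inv {a b : Λ × ℤ} (h : Cj σ a b) : Cj σ (inv σ a) (inv σ b) := by
  obtain ⟨c, hc⟩ := h
  refine ⟨c, ?_⟩
  calc mul σ c (inv σ a) = mul σ (inv σ b) (mul σ (mul σ b c) (inv σ a)) := by
        rw [mul_assoc' b, ← mul_assoc' (inv σ b), Pool.Agent.J6H54.CH.inv_mul', one_mul']
    _ = mul σ (inv σ b) (mul σ (mul σ c a) (inv σ a)) := by rw [hc]
    _ = mul σ (inv σ b) c := by rw [mul_assoc' c, mul_inv', mul_one']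

theorem clen_le_of {T : Finset (Λ × ℤ)} {a b : Λ × ℤ} (h : Cj σ a b) :
    clen σ T a ≤ len σ T b := Nat.sInf_le ⟨b, h, rfl⟩

theorem exists_clen (T : Finset (Λ × ℤ)) (a : Λ × ℤ) :
    ∃ b, Cj σ a b ∧ len σ T b = clen σ T a := by
  have hne : {n | ∃ b, Cj σ a b ∧ len σ T b = n}.Nonempty := ⟨_, a, cj_refl a, rfl⟩
  exact Nat.sInf_mem hne

theorem clen_eq {T : Finset (Λ × ℤ)} {a b : Λ × ℤ} (h : Cj σ a b) :
    clen σ T a = clen σ T b := by
  apply le_antisymm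
  · obtain ⟨c, hc, hc'⟩ := exists_clen (σ := σ) T b
    rw [← hc']
    exact clen_le_of (cj_trans h hc)
  · obtain ⟨c, hc, hc'⟩ := exists_clen (σ := σ) T a
    rw [← hc']
    exact clen_le_of (cj_trans (cj_symm h) hc)

theorem clen_inv_le {T : Finset (Λ × ℤ)} (hT : Gen σ T) (a : Λ × ℤ) :
    clen σ T (inv σ a) ≤ clen σ T a := by
  obtain ⟨c, hc, hc'⟩ := exists_clen (σ := σ) T a
  rw [← hc', ← len_inv hT c]
  exact clen_le_of (cj_inv hc)

theorem cj_iff (x x' : Λ) (m : ℤ) :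
    Cj σ (x, m) (x', m) ↔ ∃ (j : ℤ) (y : Λ), x' = (σ ^ j) x + y - (σ ^ m) y := by
  constructor
  · rintro ⟨⟨y, j⟩, hc⟩
    have h1 := congrArg Prod.fst hc
    rw [mul_fst, mul_fst] at h1
    simp only at h1
    refine ⟨j, y, ?_⟩
    rw [add_comm ((σ ^ j) x) y, h1, add_sub_cancel_right]
  · rintro ⟨j, y, h⟩
    refine ⟨(y, j), Prod.ext ?_ ?_⟩
    · rw [mul_fst, mul_fst]
      simp only
      rw [h]
      abel
    · rw [mul_snd, mul_snd]
      simp only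
      omega

end

theorem m16 : S_cj := by
  intro Λ _ σ T hT
  refine ⟨cj_refl, fun a b => cj_symm, fun a b c => cj_trans, fun a b => cj_snd,
    fun a b => cj_inv, fun a b => clen_eq, fun a => clen_le_of (cj_refl a), fun a => ?_,
    exists_clen T, cj_iff, fun x y => ?_⟩
  · apply le_antisymm (clen_inv_le hT a)
    have h1 := clen_inv_le hT (inv σ a)
    rwa [inv_inv'] at h1
  · rw [cj_iff]
    constructor
    · rintro ⟨j, w, h⟩
      exact ⟨j, by rw [h, pow_zero_apply, add_sub_cancel_right]⟩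
    · rintro ⟨j, h⟩
      exact ⟨j, 0, by rw [h, map_zero, add_zero, sub_zero]⟩

end Pool.Agent.J6H62.CH16
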