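import Pool.Agent.J6H54.CH.Stm

/-!
# CH-18: representatives in the box
-/

set_option autoImplicit false

namespace Pool.Agent.J6H62.CH18

open Finset Pool.Agent.J6H54.CH

section
variable {Λ : Type} [AddCommGroup Λ] (σ : Λ ≃ₗ[ℤ] Λ)

theorem pw_telescope (y : Λ) (l d : ℕ) :
    (σ ^ (l : ℤ)) (pw σ y l d) - pw σ y l d = (σ ^ ((l * d : ℕ) : ℤ)) y - y := by
  unfold pw
  induction d with
  | zero => simp
  | succ d ih =>
    rw [Finset.sum_range_succ, map_add]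
    have h1 : (σ ^ (l : ℤ)) ((σ ^ ((l * d : ℕ) : ℤ)) y) = (σ ^ ((l * (d + 1) : ℕ) : ℤ)) y := by
      rw [← pow_add_apply]
      congr 2
      push_cast
      ring
    rw [h1]
    have h2 : (σ ^ (l : ℤ)) (∑ i ∈ range d, (σ ^ ((l * i : ℕ) : ℤ)) y) +
        (σ ^ ((l * (d + 1) : ℕ) : ℤ)) y -
        (∑ i ∈ range d, (σ ^ ((l * i : ℕ) : ℤ)) y + (σ ^ ((l * d : ℕ) : ℤ)) y) =
        ((σ ^ (l : ℤ)) (∑ i ∈ range d, (σ ^ ((l * i : ℕ) : ℤ)) y) -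
          ∑ i ∈ range d, (σ ^ ((l * i : ℕ) : ℤ)) y) +
        ((σ ^ ((l * (d + 1) : ℕ) : ℤ)) y - (σ ^ ((l * d : ℕ) : ℤ)) y) := by abel
    rw [h2, ih]
    abel

variable {σ} {p q : Λ → ℝ} {κ M C0 : ℝ}

theorem q_le (H : Hyp σ p q κ M C0) {m : ℕ} (hm : 1 ≤ m) (y : Λ) :
    q ((σ ^ (m : ℤ)) y) ≤ κ * q y :=
  (H.q_pow m y).trans (mul_le_mul_of_nonneg_right
    (pow_le_of_le_one H.κ_pos.le H.κ_lt.le (by omega)) (H.q_nonneg y))

theorem p_le (H : Hyp σ p q κ M C0) {m : ℕ} (hm : 1 ≤ m) (y : Λ) :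
    p ((σ ^ (-(m : ℤ))) y) ≤ κ * p y :=
  (H.p_pow m y).trans (mul_le_mul_of_nonneg_right
    (pow_le_of_le_one H.κ_pos.le H.κ_lt.le (by omega)) (H.p_nonneg y))

theorem part1 (H : Hyp σ p q κ M C0) {C : ℝ} (hC : 4 * C0 ≤ C) (x : Λ) (m : ℕ) (hm : 1 ≤ m) :
    ∃ v ∈ bx σ p q C m, ∃ y, v = x + (σ ^ (m : ℤ)) y - y := by
  have hp := H.p_nonneg x
  have hq := H.q_nonneg x
  have hC0 := H.one_le_C0
  have hκ := H.κ_pos
  obtain ⟨n, hn⟩ := exists_pow_lt_of_lt_one (show (0 : ℝ) < 1 / (p x + q x + 1) by positivity) H.κ_lt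
  rw [lt_div_iff₀ (by positivity)] at hn
  have hmn : κ ^ (m * n) ≤ κ ^ n :=
    pow_le_pow_of_le_one H.κ_pos.le H.κ_lt.le (Nat.le_mul_of_pos_left n (by omega))
  have hn0 : 0 ≤ κ ^ n := pow_nonneg H.κ_pos.le n
  have hq1 : q ((σ ^ ((m * n : ℕ) : ℤ)) x) ≤ 1 := by
    have h1 := H.q_pow (m * n) x
    have h2 : κ ^ (m * n) * q x ≤ κ ^ n * q x := mul_le_mul_of_nonneg_right hmn hq
    have h3 : 0 ≤ κ ^ n * p x := mul_nonneg hn0 hp
    nlinarith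
  have hp1 : p ((σ ^ (-((m * n : ℕ) : ℤ))) x) ≤ 1 := by
    have h1 := H.p_pow (m * n) x
    have h2 : κ ^ (m * n) * p x ≤ κ ^ n * p x := mul_le_mul_of_nonneg_right hmn hp
    have h3 : 0 ≤ κ ^ n * q x := mul_nonneg hn0 hq
    nlinarith
  obtain ⟨x', hx'⟩ : ∃ x', x' = (σ ^ (-((m * n : ℕ) : ℤ))) x := ⟨_, rfl⟩
  have hY := pw_telescope σ x m n
  have hY' := pw_telescope σ x' m n
  have hxx : (σ ^ ((m * n : ℕ) : ℤ)) x' = x := by rw [hx', pow_pow_neg]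
  rw [hxx] at hY'
  obtain ⟨z, hz1, hz2⟩ := H.appr (-(pw σ x' m n)) (pw σ x m n)
  obtain ⟨Y, hYd⟩ : ∃ Y, Y = pw σ x m n := ⟨_, rfl⟩
  obtain ⟨Z, hZd⟩ : ∃ Z, Z = pw σ x' m n := ⟨_, rfl⟩
  rw [← hYd] at hY hz2
  rw [← hZd] at hY' hz1
  refine ⟨x + (σ ^ (m : ℤ)) z - z, (mem_bx H).2 ⟨?_, ?_⟩, z, rfl⟩
  · have e1 : x + (σ ^ (m : ℤ)) z - z =
        (σ ^ ((m * n : ℕ) : ℤ)) x + (-((σ ^ (m : ℤ)) (Y - z)) + (Y - z)) := by
      have : (σ ^ ((m * n : ℕ) : ℤ)) x = x + ((σ ^ (m : ℤ)) Y - Y) := by rw [hY]; abel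
      rw [this, map_sub]
      abel
    rw [e1]
    have h1 := H.q_add ((σ ^ ((m * n : ℕ) : ℤ)) x) (-((σ ^ (m : ℤ)) (Y - z)) + (Y - z))
    have h2 := H.q_add (-((σ ^ (m : ℤ)) (Y - z))) (Y - z)
    rw [H.q_neg] at h2
    have h3 := q_le H hm (Y - z)
    have h4 : κ * q (Y - z) ≤ 1 * q (Y - z) :=
      mul_le_mul_of_nonneg_right H.κ_lt.le (H.q_nonneg _)
    linarith
  · have e1 : (σ ^ (-(m : ℤ))) (x + (σ ^ (m : ℤ)) z - z) =
        (σ ^ (-(m : ℤ))) x' + (-(-Z - z) + (σ ^ (-(m : ℤ))) (-Z - z)) := by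
      have h0 : x = x' - ((σ ^ (m : ℤ)) (-Z) - (-Z)) := by
        rw [map_neg]
        have : (σ ^ (m : ℤ)) Z = x - x' + Z := by rw [← hY']; abel
        rw [this]
        abel
      have h1 : x + (σ ^ (m : ℤ)) z - z = x' - (σ ^ (m : ℤ)) (-Z - z) + (-Z - z) := by
        conv_lhs => rw [h0]
        rw [map_sub (σ ^ (m : ℤ)) (-Z) z]
        abel
      rw [h1, map_add, map_sub (σ ^ (-(m : ℤ))) x', pow_neg_pow]
      abel
    rw [e1]
    have h1 := H.p_add ((σ ^ (-(m : ℤ))) x') (-(-Z - z) + (σ ^ (-(m : ℤ))) (-Z - z))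
    have h2 := H.p_add (-(-Z - z)) ((σ ^ (-(m : ℤ))) (-Z - z))
    rw [H.p_neg] at h2
    have h3 := p_le H hm (-Z - z)
    have h4 : κ * p (-Z - z) ≤ 1 * p (-Z - z) :=
      mul_le_mul_of_nonneg_right H.κ_lt.le (H.p_nonneg _)
    have h5 := p_le H hm x'
    have h6 : κ * p x' ≤ 1 * p x' :=
      mul_le_mul_of_nonneg_right H.κ_lt.le (H.p_nonneg _)
    rw [← hx'] at hp1
    linarith

theorem part2 (H : Hyp σ p q κ M C0) {C : ℝ} :
    ∃ N : ℕ, ∀ (m : ℕ), 1 ≤ m → ∀ (x : Λ) (V : Finset Λ), V ⊆ bx σ p q C m →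
    (∀ v ∈ V, ∃ y, v = x + (σ ^ (m : ℤ)) y - y) → V.card ≤ N := by
  classical
  have hκ := H.κ_lt
  have hfin := H.fin (2 * C / (1 - κ))
  refine ⟨hfin.toFinset.card, ?_⟩
  intro m hm x V hV hVy
  rcases V.eq_empty_or_nonempty with rfl | ⟨v0, hv0⟩
  · simp
  obtain ⟨y0, hy0⟩ := hVy v0 hv0
  choose! f hf using hVy
  apply Finset.card_le_card_of_injOn (fun v => f v - y0)
  · intro v hv
    have hv := Finset.mem_coe.1 hv
    rw [Finset.mem_coe, Set.Finite.mem_toFinset]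
    have hb := (mem_bx H).1 (hV hv)
    have hb0 := (mem_bx H).1 (hV hv0)
    obtain ⟨w, hw⟩ : ∃ w, w = f v - y0 := ⟨_, rfl⟩
    have e1 : (σ ^ (m : ℤ)) w - w = v - v0 := by
      rw [hw, map_sub]
      conv_rhs => rw [hf v hv, hy0]
      abel
    simp only
    rw [← hw]
    constructor
    · rw [le_div_iff₀ (by linarith)]
      have e2 : w = (σ ^ (-(m : ℤ))) w + ((σ ^ (-(m : ℤ))) v - (σ ^ (-(m : ℤ))) v0) := by
        rw [← map_sub, ← e1, map_sub, pow_neg_pow]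
        abel
      have h1 := H.p_add ((σ ^ (-(m : ℤ))) w) ((σ ^ (-(m : ℤ))) v - (σ ^ (-(m : ℤ))) v0)
      rw [← e2] at h1
      have h2 := H.p_sub ((σ ^ (-(m : ℤ))) v) ((σ ^ (-(m : ℤ))) v0)
      have h3 := p_le H hm w
      linarith [hb.2, hb0.2]
    · rw [le_div_iff₀ (by linarith)]
      have e2 : w = (σ ^ (m : ℤ)) w - (v - v0) := by
        rw [← e1]
        abel
      have h1 := H.q_sub ((σ ^ (m : ℤ)) w) (v - v0)
      rw [← e2] at h1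
      have h2 := H.q_sub v v0
      have h3 := q_le H hm w
      linarith [hb.1, hb0.1]
  · intro v hv v' hv' h
    have hv := Finset.mem_coe.1 hv
    have hv' := Finset.mem_coe.1 hv'
    simp only at h
    have : f v = f v' := sub_left_injective h
    rw [hf v hv, hf v' hv', this]

theorem part3 (H : Hyp σ p q κ M C0) (m : ℕ) (y : Λ) (hm : 1 ≤ m) (h : (σ ^ (m : ℤ)) y = y) :
    y = 0 := by
  have hκ := H.κ_lt
  have h' : (σ ^ (-(m : ℤ))) y = y := by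
    conv_lhs => rw [← h]
    rw [pow_neg_pow]
  have h1 := q_le H hm y
  have h2 := p_le H hm y
  rw [h] at h1
  rw [h'] at h2
  have h3 := H.p_nonneg y
  have h4 := H.q_nonneg y
  exact H.sep y (by nlinarith) (by nlinarith)

end

theorem m18 : S_rep := by
  intro Λ _ σ p q κ M C0 C H hC
  exact ⟨fun x m hm => part1 H hC x m hm, part2 H, fun m y hm h => part3 H m y hm h⟩

end Pool.Agent.J6H62.CH18
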