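import Pool.Agent.J6H54.CH.Stm

/-!
# CH-20: upper bound for the sum over the classes of exponent `m`
-/

set_option autoImplicit false

namespace Pool.Agent.J6H62.CH20

open Finset Pool.Agent.J6H54.CH

section
variable {Λ : Type} [AddCommGroup Λ] (σ : Λ ≃ₗ[ℤ] Λ)

theorem pow_comm_apply (a b : ℤ) (x : Λ) : (σ ^ a) ((σ ^ b) x) = (σ ^ b) ((σ ^ a) x) := by
  rw [← pow_add_apply, ← pow_add_apply, add_comm]

theorem pw_add (u v : Λ) (l d : ℕ) : pw σ (u + v) l d = pw σ u l d + pw σ v l d := by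
  unfold pw
  rw [← Finset.sum_add_distrib]
  exact Finset.sum_congr rfl fun i _ => map_add _ _ _

theorem pw_neg (u : Λ) (l d : ℕ) : pw σ (-u) l d = - pw σ u l d := by
  unfold pw
  rw [← Finset.sum_neg_distrib]
  exact Finset.sum_congr rfl fun i _ => map_neg _ _

theorem pw_shift (u : Λ) (l d : ℕ) : pw σ ((σ ^ (l : ℤ)) u) l d = (σ ^ (l : ℤ)) (pw σ u l d) := by
  unfold pw
  rw [map_sum]
  exact Finset.sum_congr rfl fun i _ => pow_comm_apply σ _ _ _

theorem pw_telescope (y : Λ) (l d : ℕ) :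
    (σ ^ (l : ℤ)) (pw σ y l d) - pw σ y l d = (σ ^ ((l * d : ℕ) : ℤ)) y - y := by
  unfold pw
  induction d with
  | zero => simp
  | succ d ih =>
    rw [Finset.sum_range_succ, map_add]
    have h1 : (σ ^ (l : ℤ)) ((σ ^ ((l * d : ℕ) : ℤ)) y) = (σ ^ ((l * (d + 1) : ℕ) : ℤ)) y := by
      rw [← pow_add_apply]
      congr 2
      push_cast
      ring
    rw [h1]
    have h2 : (σ ^ (l : ℤ)) (∑ i ∈ range d, (σ ^ ((l * i : ℕ) : ℤ)) y) +
        (σ ^ ((l * (d + 1) : ℕ) : ℤ)) y -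
        (∑ i ∈ range d, (σ ^ ((l * i : ℕ) : ℤ)) y + (σ ^ ((l * d : ℕ) : ℤ)) y) =
        ((σ ^ (l : ℤ)) (∑ i ∈ range d, (σ ^ ((l * i : ℕ) : ℤ)) y) -
          ∑ i ∈ range d, (σ ^ ((l * i : ℕ) : ℤ)) y) +
        ((σ ^ ((l * (d + 1) : ℕ) : ℤ)) y - (σ ^ ((l * d : ℕ) : ℤ)) y) := by abel
    rw [h2, ih]
    abel

/-- the exponents `n` with `σ ^ n x` and `x` in the same coset -/
def Sg (x : Λ) (m : ℤ) : AddSubgroup ℤ where
  carrier := {n | ∃ y, (σ ^ n) x - x = (σ ^ m) y - y}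
  zero_mem' := ⟨0, by simp⟩
  add_mem' := by
    rintro a b ⟨y, hy⟩ ⟨w, hw⟩
    refine ⟨(σ ^ a) w + y, ?_⟩
    have h1 : (σ ^ (a + b)) x - x = (σ ^ a) ((σ ^ b) x - x) + ((σ ^ a) x - x) := by
      rw [pow_add_apply, map_sub]; abel
    rw [h1, hw, hy, map_sub, map_add, pow_comm_apply σ a m w]
    abel
  neg_mem' := by
    rintro a ⟨y, hy⟩
    refine ⟨-((σ ^ (-a)) y), ?_⟩
    have h1 : (σ ^ (-a)) x - x = -((σ ^ (-a)) ((σ ^ a) x - x)) := by
      rw [map_sub, pow_neg_pow]; abel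
    rw [h1, hy, map_sub, map_neg, pow_comm_apply σ (-a) m y]
    abel

theorem collide {p q : Λ → ℝ} {C : ℝ}
    (hrep : ∀ (x : Λ) (m : ℕ), 1 ≤ m → ∃ v ∈ bx σ p q C m, ∃ y, v = x + (σ ^ (m : ℤ)) y - y)
    (hinj : ∀ (m : ℕ) (y : Λ), 1 ≤ m → (σ ^ (m : ℤ)) y = y → y = 0)
    {m j j' : ℕ} (hjj : j < j') (hj' : j' < m) {x y y' : Λ}
    (h : (σ ^ (j : ℤ)) x + (σ ^ (m : ℤ)) y - y = (σ ^ (j' : ℤ)) x + (σ ^ (m : ℤ)) y' - y') :
    ∃ l ∈ m.properDivisors, ∃ v ∈ bx σ p q C l, ∃ u, pw σ v l (m / l) = x + (σ ^ (m : ℤ)) u - u := by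
  obtain ⟨r, rfl⟩ := Nat.exists_eq_add_of_le hjj.le
  have hr : 0 < r := by omega
  -- `r` and `m` are in the subgroup
  have h1 : (r : ℤ) ∈ Sg σ x (m : ℤ) := by
    refine ⟨(σ ^ (-(j : ℤ))) (y - y'), ?_⟩
    have e1 : (σ ^ ((j + r : ℕ) : ℤ)) x = (σ ^ (j : ℤ)) ((σ ^ (r : ℤ)) x) := by
      rw [← pow_add_apply]
      congr 2
    rw [e1] at h
    have e2 : (σ ^ (j : ℤ)) ((σ ^ (r : ℤ)) x - x) = (σ ^ (m : ℤ)) (y - y') - (y - y') := by
      rw [map_sub, map_sub]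
      have := sub_eq_zero.2 h
      rw [← sub_eq_zero]
      rw [← neg_eq_zero, ← this]
      abel
    have e3 : (σ ^ (r : ℤ)) x - x = (σ ^ (-(j : ℤ))) ((σ ^ (j : ℤ)) ((σ ^ (r : ℤ)) x - x)) := by
      rw [pow_neg_pow]
    rw [e3, e2, map_sub (σ ^ (-(j : ℤ))), pow_comm_apply σ (-(j : ℤ)) (m : ℤ)]
  have h2 : (m : ℤ) ∈ Sg σ x (m : ℤ) := ⟨x, rfl⟩
  set l := Nat.gcd r m with hl
  have hl0 : 0 < l := Nat.gcd_pos_of_pos_left _ hr
  have hlr : l ≤ r := Nat.gcd_le_left m hr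
  have hlm : l ∣ m := Nat.gcd_dvd_right r m
  have h3 : (l : ℤ) ∈ Sg σ x (m : ℤ) := by
    have e1 : (l : ℤ) = Nat.gcdA r m • (r : ℤ) + Nat.gcdB r m • (m : ℤ) := by
      rw [hl, Nat.gcd_eq_gcd_ab, smul_eq_mul, smul_eq_mul]
      ring
    rw [e1]
    exact (Sg σ x (m : ℤ)).add_mem ((Sg σ x (m : ℤ)).zsmul_mem h1 _)
      ((Sg σ x (m : ℤ)).zsmul_mem h2 _)
  obtain ⟨w, hw⟩ := h3
  obtain ⟨d, hd⟩ := hlm
  have hdm : m / l = d := by
    rw [hd]
    exact Nat.mul_div_cancel_left d hl0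
  have hx : x = pw σ w l d := by
    have e1 := pw_telescope σ w l d
    rw [← hd, ← hw] at e1
    have e2 : (σ ^ (l : ℤ)) (x - pw σ w l d) = x - pw σ w l d := by
      rw [map_sub]
      have := sub_eq_zero.2 e1
      rw [← sub_eq_zero, ← neg_eq_zero, ← this]
      abel
    exact sub_eq_zero.1 (hinj l _ hl0 e2)
  obtain ⟨v, hv, u, hu⟩ := hrep w l hl0
  refine ⟨l, Nat.mem_properDivisors.2 ⟨Dvd.intro d hd.symm, by omega⟩, v, hv, u, ?_⟩
  rw [hdm, hu, sub_eq_add_neg, pw_add, pw_add, pw_neg, pw_shift, ← hx]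
  have e1 := pw_telescope σ u l d
  rw [← hd] at e1
  rw [add_assoc, ← sub_eq_add_neg, e1, add_sub_assoc]

end

theorem m20 (h16 : S_cj) (h17 : S_pow) (h18 : S_rep) : S_Fup := by
  classical
  intro Λ _ σ T p q κ M C0 C K H hT hC hK m z X hm hz hz1 hX
  obtain ⟨-, hsymm, htrans, -, -, hclen, -, -, -, hform, -⟩ := h16 Λ σ T hT
  obtain ⟨hrep, -, hinj⟩ := h18 Λ σ p q κ M C0 C H hC
  have hC0 : 0 ≤ C := by linarith [H.one_le_C0]
  have hlen : ∀ v ∈ bx σ p q C m, len σ T (v, (m : ℤ)) ≤ clen σ T (v, (m : ℤ)) + K := by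
    intro v hv
    have h1 := h17 Λ σ T p q κ M C0 C K H hT hC0 hK v m 1 hm hv
    have e : pw σ v m 1 = v := by unfold pw; simp
    rw [e, one_mul, one_mul, mul_one] at h1
    exact h1
  obtain ⟨g, hg⟩ : ∃ g : Λ → ℝ, ∀ x, g x = z ^ clen σ T (x, (m : ℤ)) := ⟨_, fun _ => rfl⟩
  have hg0 : ∀ x, 0 ≤ g x := fun x => by rw [hg]; positivity
  have hzK : 0 ≤ z ^ K := by positivity
  obtain ⟨Q, hQ⟩ : ∃ Q : Λ → Prop, ∀ x, Q x ↔ ∃ l ∈ m.properDivisors, ∃ v ∈ bx σ p q C l,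
      Cj σ (x, (m : ℤ)) (pw σ v l (m / l), (m : ℤ)) := ⟨_, fun _ => Iff.rfl⟩
  have hsum : ∑ x ∈ X, z ^ clen σ T (x, (m : ℤ)) =
      ∑ x ∈ X.filter (fun x => ¬ Q x), g x + ∑ x ∈ X.filter (fun x => Q x), g x := by
    rw [add_comm, Finset.sum_filter_add_sum_filter_not]
    exact Finset.sum_congr rfl fun x _ => (hg x).symm
  -- the first part
  have h1 : z ^ K * (m * ∑ x ∈ X.filter (fun x => ¬ Q x), g x) ≤ A σ T p q C m z := by
    have hc : ∀ (x : Λ) (j : ℕ), ∃ v ∈ bx σ p q C m, ∃ y, v = (σ ^ (j : ℤ)) x + (σ ^ (m : ℤ)) y - y :=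
      fun x j => hrep _ m hm
    choose v hv y hy using hc
    have hcj : ∀ (x : Λ) (j : ℕ), Cj σ (x, (m : ℤ)) (v x j, (m : ℤ)) := by
      intro x j
      rw [hform]
      refine ⟨(j : ℤ), -(y x j), ?_⟩
      rw [hy x j, map_neg]
      abel
    have e1 : z ^ K * (m * ∑ x ∈ X.filter (fun x => ¬ Q x), g x) ≤
        ∑ x ∈ X.filter (fun x => ¬ Q x), ∑ j ∈ range m, z ^ len σ T (v x j, (m : ℤ)) := by
      rw [Finset.mul_sum, Finset.mul_sum]
      apply Finset.sum_le_sum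
      intro x _
      have e2 : z ^ K * ((m : ℝ) * g x) = ∑ j ∈ range m, z ^ K * g x := by
        rw [Finset.sum_const, card_range, nsmul_eq_mul]
        ring
      rw [e2]
      apply Finset.sum_le_sum
      intro j _
      have e3 := hclen _ _ (hcj x j)
      have e4 := hlen _ (hv x j)
      rw [hg, e3, ← pow_add]
      apply pow_le_pow_of_le_one hz.le hz1
      rw [add_comm]
      exact e4
    refine e1.trans ?_
    rw [← Finset.sum_product']
    have e6 : ∑ x ∈ (X.filter (fun x => ¬ Q x)) ×ˢ range m, z ^ len σ T (v x.1 x.2, (m : ℤ)) =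
        ∑ u ∈ ((X.filter (fun x => ¬ Q x)) ×ˢ range m).image (fun x => v x.1 x.2),
          z ^ len σ T (u, (m : ℤ)) := by
      rw [Finset.sum_image]
      rintro ⟨x, j⟩ hx ⟨x', j'⟩ hx' he
      have hx1 := Finset.mem_product.mp (Finset.mem_coe.mp hx)
      have hx2 := Finset.mem_product.mp (Finset.mem_coe.mp hx')
      simp only at hx1 hx2 he
      have hr1 := Finset.mem_filter.mp hx1.1
      have hr2 := Finset.mem_filter.mp hx2.1
      have c1 := hcj x j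
      have c2 := hcj x' j'
      rw [he] at c1
      have hxx : x = x' := hX x hr1.1 x' hr2.1 (htrans _ _ _ c1 (hsymm _ _ c2))
      subst hxx
      have key : ∀ a b : ℕ, a < b → b < m → v x a ≠ v x b := by
        intro a b hab hb hvv
        apply hr1.2
        rw [hQ]
        rw [hy x a, hy x b] at hvv
        obtain ⟨l, hl, w, hw, u, hu⟩ := collide σ hrep hinj hab hb hvv
        refine ⟨l, hl, w, hw, ?_⟩
        rw [hform]
        refine ⟨0, -u, ?_⟩
        rw [hu, map_neg, pow_zero_apply]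
        abel
      have hjm := mem_range.mp hx1.2
      have hjm' := mem_range.mp hx2.2
      rcases Nat.lt_trichotomy j j' with hlt | heq | hlt
      · exact absurd he (key j j' hlt hjm')
      · rw [heq]
      · exact absurd he.symm (key j' j hlt hjm)
    rw [e6]
    unfold A
    apply Finset.sum_le_sum_of_subset_of_nonneg
    · intro u hu
      obtain ⟨x, _, rfl⟩ := mem_image.mp hu
      exact hv _ _
    · intro u _ _
      positivity
  -- the second part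
  have h2 : ∑ x ∈ X.filter (fun x => Q x), g x ≤ E σ T p q C m z := by
    have e1 : E σ T p q C m z = ∑ x ∈ m.properDivisors.sigma (fun l => bx σ p q C l),
        g (pw σ x.2 x.1 (m / x.1)) := by
      unfold E
      rw [Finset.sum_sigma]
      refine Finset.sum_congr rfl fun l _ => Finset.sum_congr rfl fun b _ => ?_
      rw [hg]
    rw [e1]
    have hc : ∀ x ∈ X.filter (fun x => Q x), ∃ a ∈ m.properDivisors.sigma (fun l => bx σ p q C l),
        Cj σ (x, (m : ℤ)) (pw σ a.2 a.1 (m / a.1), (m : ℤ)) := by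
      intro x hx
      obtain ⟨l, hl, v, hv, hxv⟩ := (hQ x).1 (Finset.mem_filter.1 hx).2
      exact ⟨⟨l, v⟩, Finset.mem_sigma.2 ⟨hl, hv⟩, hxv⟩
    rcases (X.filter (fun x => Q x)).eq_empty_or_nonempty with hem | ⟨x₀, hx₀⟩
    · rw [hem, Finset.sum_empty]
      exact Finset.sum_nonneg fun _ _ => hg0 _
    obtain ⟨a₀, -, -⟩ := hc x₀ hx₀
    have : Inhabited ((_ : ℕ) × Λ) := ⟨a₀⟩
    choose! a haS ha using hc
    calc ∑ x ∈ X.filter (fun x => Q x), g x =
          ∑ x ∈ X.filter (fun x => Q x), g (pw σ (a x).2 (a x).1 (m / (a x).1)) := by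
          refine Finset.sum_congr rfl fun x hx => ?_
          rw [hg, hg, hclen _ _ (ha x hx)]
      _ = ∑ b ∈ (X.filter (fun x => Q x)).image a, g (pw σ b.2 b.1 (m / b.1)) := by
          rw [Finset.sum_image]
          intro x hx x' hx' hxx
          have hx1 := Finset.mem_coe.1 hx
          have hx2 := Finset.mem_coe.1 hx'
          have c1 := ha x hx1
          have c2 := ha x' hx2
          rw [hxx] at c1
          exact hX x (Finset.mem_filter.1 hx1).1 x' (Finset.mem_filter.1 hx2).1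
            (htrans _ _ _ c1 (hsymm _ _ c2))
      _ ≤ _ := by
          refine Finset.sum_le_sum_of_subset_of_nonneg ?_ (fun _ _ _ => hg0 _)
          intro b hb
          obtain ⟨x, hx, rfl⟩ := mem_image.mp hb
          exact haS x hx
  rw [hsum, mul_add, mul_add]
  exact add_le_add h1 (mul_le_mul_of_nonneg_left
    (mul_le_mul_of_nonneg_left h2 (Nat.cast_nonneg m)) hzK)

end Pool.Agent.J6H62.CH20
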